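import Pool.Agent.H34.TAM.Stmts3

/-!
Board per, row NUM: the norm of `E ⊗ E^op` is submultiplicative.
-/

set_option autoImplicit false

noncomputable section

open scoped TensorProduct

namespace Pool.PER

open Pool.CGR Pool.CGS Pool.TAM Pool.AUT MulOpposite

namespace NUM

theorem wt_mul {m : ℕ} {r : ℝ} (hr : 1 ≤ r) (u v u' v' : List (Fin m)) :
    wt r (u ++ u') (v' ++ v) ≤ wt r u v * wt r u' v' := by
  unfold wt
  rw [List.length_append, List.length_append]
  push_cast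
  have e : r ^ (u.length + u'.length + (v'.length + v.length))
      = r ^ (u.length + v.length) * r ^ (u'.length + v'.length) := by
    rw [← pow_add]; congr 1; ring
  rw [e]
  have h0 : 0 ≤ r := by linarith
  have hp : 0 ≤ r ^ (u.length + v.length) * r ^ (u'.length + v'.length) :=
    mul_nonneg (pow_nonneg h0 _) (pow_nonneg h0 _)
  have a1 : (0 : ℝ) ≤ u.length := Nat.cast_nonneg _
  have a2 : (0 : ℝ) ≤ v.length := Nat.cast_nonneg _
  have a3 : (0 : ℝ) ≤ u'.length := Nat.cast_nonneg _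
  have a4 : (0 : ℝ) ≤ v'.length := Nat.cast_nonneg _
  have hk : 1 + ((u.length : ℝ) + u'.length) + ((v'.length : ℝ) + v.length)
      ≤ (1 + (u.length : ℝ) + v.length) * (1 + (u'.length : ℝ) + v'.length) := by
    have b1 := mul_nonneg (add_nonneg a1 a2) (add_nonneg a3 a4)
    nlinarith [b1]
  have h5 := mul_le_mul_of_nonneg_right hk hp
  refine h5.trans (le_of_eq ?_)
  ring

theorem wt_nonneg {m : ℕ} {r : ℝ} (hr : 1 ≤ r) (u v : List (Fin m)) : 0 ≤ wt r u v := by
  unfold wt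
  have a1 : (0 : ℝ) ≤ u.length := Nat.cast_nonneg _
  have a2 : (0 : ℝ) ≤ v.length := Nat.cast_nonneg _
  exact mul_nonneg (by linarith) (pow_nonneg (by linarith) _)

theorem wd_append {m : ℕ} (u v : List (Fin m)) : wd (u ++ v) = wd u * wd v := by
  unfold wd
  rw [List.map_append, List.prod_append]

theorem word_mul {m : ℕ} (u v u' v' : List (Fin m)) :
    (wd u ⊗ₜ[ℂ] op (wd v) : Te m) * (wd u' ⊗ₜ[ℂ] op (wd v'))
      = wd (u ++ u') ⊗ₜ[ℂ] op (wd (v' ++ v)) := by
  rw [Algebra.TensorProduct.tmul_mul_tmul, wd_append, wd_append, op_mul]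

theorem left {m : ℕ} {r : ℝ} {ν : Te m → ℝ} (hr : 1 ≤ r) (h : IsNu r ν) (u v : List (Fin m))
    (b : Te m) : ν ((wd u ⊗ₜ[ℂ] op (wd v)) * b) ≤ wt r u v * ν b := by
  refine h.max (fun b => ν ((wd u ⊗ₜ[ℂ] op (wd v)) * b)) (wt r u v) (wt_nonneg hr u v) ?_ ?_ ?_ b
  · intro z z'
    show ν ((wd u ⊗ₜ[ℂ] op (wd v)) * (z + z')) ≤ _
    rw [mul_add]
    exact h.add _ _
  · intro c z
    show ν ((wd u ⊗ₜ[ℂ] op (wd v)) * (c • z)) ≤ _
    rw [mul_smul_comm]
    exact h.smul _ _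
  · intro u' v'
    show ν ((wd u ⊗ₜ[ℂ] op (wd v)) * (wd u' ⊗ₜ[ℂ] op (wd v'))) ≤ _
    rw [word_mul]
    exact (h.gen _ _).trans (wt_mul hr _ _ _ _)

theorem mul_le {m : ℕ} {r : ℝ} {ν : Te m → ℝ} (hr : 1 ≤ r) (h : IsNu r ν) (a b : Te m) :
    ν (a * b) ≤ ν a * ν b := by
  rw [mul_comm (ν a)]
  refine h.max (fun a => ν (a * b)) (ν b) (h.nonneg b) ?_ ?_ ?_ a
  · intro z z'
    show ν ((z + z') * b) ≤ _
    rw [add_mul]
    exact h.add _ _
  · intro c z
    show ν ((c • z) * b) ≤ _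
    rw [smul_mul_assoc]
    exact h.smul _ _
  · intro u v
    rw [mul_comm (ν b)]
    exact left hr h u v b

end NUM

open NUM in
theorem num_thm : NUMStmt := by
  intro m r ν hr h
  refine ⟨?_, fun a b => mul_le hr h a b, ?_⟩
  · have h1 := h.gen [] []
    have h2 : wt r ([] : List (Fin m)) [] = 1 := by simp [wt]
    rw [h2] at h1
    have h3 : (wd ([] : List (Fin m)) ⊗ₜ[ℂ] op (wd ([] : List (Fin m))) : Te m) = 1 := by
      simp [wd, Algebra.TensorProduct.one_def]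
    rw [h3] at h1
    exact h1
  · have h1 := h.smul 0 0
    rw [smul_zero, norm_zero, zero_mul] at h1
    exact le_antisymm h1 (h.nonneg 0)

end Pool.PER
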